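import Mathlib.RingTheory.Multiplicity
import Mathlib.NumberTheory.Padics.PadicVal.Basic
import Mathlib.Data.Set.Card
import Mathlib.Order.WellFounded
import Mathlib.Tactic

/-!
# Bhargava factorials of subsets of the integers

`p`-orderings and generalized factorials, and a criterion which computes the `q`-part of the
`(q-1)`-st factorial, `q` prime, of a set of integers that misses the class `0` modulo `q`,
respectively of a set that meets all classes modulo `q`.
-/

set_option autoImplicit false

namespace Pool.Agent.Q39.Bhargava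

/-- The product `∏_{i < k} (x - a i)`. -/
def prodDiff (a : ℕ → ℤ) (k : ℕ) (x : ℤ) : ℤ := ∏ i ∈ Finset.range k, (x - a i)

/-- `a 0, ..., a n` is (the beginning of) a `p`-ordering of `X`: every `a k` lies in `X` and, among
the elements `x` of `X`, the choice `x = a k` makes the exponent of the highest power of `p`
dividing `∏_{i < k} (x - a i)` as small as possible (the exponent is `⊤` if the product is `0`). -/
def IsPOrdering (X : Set ℤ) (p n : ℕ) (a : ℕ → ℤ) : Prop :=
  ∀ k ≤ n, a k ∈ X ∧
    ∀ x ∈ X, emultiplicity (p : ℤ) (prodDiff a k (a k)) ≤ emultiplicity (p : ℤ) (prodDiff a k x)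

/-- `F` is the `n`-th Bhargava factorial `n!_X` of `X`, defined when `n < |X|`: the positive integer
`F` such that, for every prime `p`, the exponent of `p` in `F` is the exponent of the highest power
of `p` dividing `∏_{i < n} (a n - a i)` for a `p`-ordering `a` of `X`. -/
def IsFactorial (X : Set ℤ) (n F : ℕ) : Prop :=
  (n : ℕ∞) < X.encard ∧ 0 < F ∧
    ∀ p : ℕ, p.Prime → ∃ a : ℕ → ℤ, IsPOrdering X p n a ∧
      (padicValNat p F : ℕ∞) = emultiplicity (p : ℤ) (prodDiff a n (a n))

lemma emult_eq_zero_iff {p : ℕ} {x : ℤ} : emultiplicity (p : ℤ) x = 0 ↔ ¬ (p : ℤ) ∣ x :=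
  emultiplicity_eq_zero

lemma prime_dvd_prodDiff {p : ℕ} (hp : p.Prime) {a : ℕ → ℤ} {k : ℕ} {x : ℤ} :
    (p : ℤ) ∣ prodDiff a k x ↔ ∃ i < k, (p : ℤ) ∣ x - a i := by
  unfold prodDiff
  rw [Prime.dvd_finsetProd_iff (Nat.prime_iff_prime_int.mp hp)]
  simp

/-- If no element of `X` is divisible by the prime `q`, then `q` divides `(q-1)!_X`. -/
lemma dvd_of_missing {X : Set ℤ} {q : ℕ} (hq : q.Prime) (hX : ∀ x ∈ X, ¬ (q : ℤ) ∣ x)
    {a : ℕ → ℤ} (ha : IsPOrdering X q (q - 1) a) :
    (q : ℤ) ∣ prodDiff a (q - 1) (a (q - 1)) := by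
  have : Fact q.Prime := ⟨hq⟩
  by_contra hcon
  rw [prime_dvd_prodDiff hq] at hcon
  push Not at hcon
  -- the residues of `a 0, ..., a (q-1)` are nonzero
  have hcard : (Finset.univ.erase (0 : ZMod q)).card < (Finset.range q).card := by
    rw [Finset.card_erase_of_mem (Finset.mem_univ _), Finset.card_univ, ZMod.card,
      Finset.card_range]
    have := hq.two_le
    omega
  have hmaps : ∀ i ∈ Finset.range q, ((a i : ℤ) : ZMod q) ∈ Finset.univ.erase (0 : ZMod q) := by
    intro i hi
    rw [Finset.mem_range] at hi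
    rw [Finset.mem_erase]
    refine ⟨?_, Finset.mem_univ _⟩
    intro h0
    rw [ZMod.intCast_zmod_eq_zero_iff_dvd] at h0
    exact hX _ (ha i (by omega)).1 h0
  obtain ⟨i, hi, j, hj, hij, hval⟩ :=
    Finset.exists_ne_map_eq_of_card_lt_of_maps_to hcard hmaps
  rw [Finset.mem_range] at hi hj
  -- wlog i < j
  have main : ∀ i j : ℕ, i < j → j < q → ((a i : ℤ) : ZMod q) = ((a j : ℤ) : ZMod q) → False := by
    intro i j hij hj hval
    have hd : (q : ℤ) ∣ a j - a i := by
      rw [← ZMod.intCast_zmod_eq_zero_iff_dvd]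
      push_cast
      rw [hval, sub_self]
    rcases Nat.lt_or_ge j (q - 1) with hj' | hj'
    · have h1 := (ha j (by omega)).2 (a (q - 1)) (ha (q - 1) le_rfl).1
      have h2 : emultiplicity (q : ℤ) (prodDiff a j (a (q - 1))) = 0 := by
        rw [emult_eq_zero_iff, prime_dvd_prodDiff hq]
        rintro ⟨l, hl, hdl⟩
        exact hcon l (by omega) hdl
      rw [h2] at h1
      have h3 : emultiplicity (q : ℤ) (prodDiff a j (a j)) = 0 := le_antisymm h1 zero_le
      rw [emult_eq_zero_iff] at h3
      exact h3 ((prime_dvd_prodDiff hq).2 ⟨i, hij, hd⟩)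
    · have hjq : j = q - 1 := by omega
      subst hjq
      exact hcon i hij hd
  rcases lt_or_gt_of_ne hij with h | h
  · exact main i j h hj hval
  · exact main j i h hi hval.symm

/-- If `X` meets all residue classes modulo the prime `q`, then `q` does not divide `(q-1)!_X`. -/
lemma not_dvd_of_full {X : Set ℤ} {q : ℕ} (hq : q.Prime)
    (hX : ∀ r : ZMod q, ∃ x ∈ X, ((x : ℤ) : ZMod q) = r)
    {a : ℕ → ℤ} (ha : IsPOrdering X q (q - 1) a) :
    ¬ (q : ℤ) ∣ prodDiff a (q - 1) (a (q - 1)) := by
  have : Fact q.Prime := ⟨hq⟩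
  have hcard : ((Finset.range (q - 1)).image (fun i => ((a i : ℤ) : ZMod q))).card
      < (Finset.univ : Finset (ZMod q)).card := by
    refine lt_of_le_of_lt Finset.card_image_le ?_
    rw [Finset.card_univ, ZMod.card, Finset.card_range]
    have := hq.two_le
    omega
  obtain ⟨r, -, hr⟩ := Finset.exists_mem_notMem_of_card_lt_card hcard
  obtain ⟨x, hx, hxr⟩ := hX r
  have h1 := (ha (q - 1) le_rfl).2 x hx
  have h2 : emultiplicity (q : ℤ) (prodDiff a (q - 1) x) = 0 := by
    rw [emult_eq_zero_iff, prime_dvd_prodDiff hq]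
    rintro ⟨l, hl, hdl⟩
    apply hr
    rw [Finset.mem_image]
    refine ⟨l, Finset.mem_range.2 hl, ?_⟩
    rw [← ZMod.intCast_zmod_eq_zero_iff_dvd] at hdl
    push_cast at hdl
    rw [← hxr]
    exact (sub_eq_zero.1 hdl).symm
  rw [h2] at h1
  rw [← emult_eq_zero_iff]
  exact le_antisymm h1 zero_le

/-- The choice in a `p`-ordering can always be made. -/
lemma exists_argmin {X : Set ℤ} (hX : X.Nonempty) (f : ℤ → ℕ∞) :
    ∃ x ∈ X, ∀ y ∈ X, f x ≤ f y := by
  obtain ⟨x, hx, hmin⟩ := WellFounded.has_min (wellFounded_lt (α := ℕ∞)) (f '' X) (hX.image f)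
  obtain ⟨z, hz, rfl⟩ := hx
  exact ⟨z, hz, fun y hy => not_lt.1 (hmin _ ⟨y, hy, rfl⟩)⟩

lemma exists_pOrdering {X : Set ℤ} (hX : X.Nonempty) (p n : ℕ) :
    ∃ a : ℕ → ℤ, IsPOrdering X p n a := by
  classical
  have step : ∀ n : ℕ, ∃ a : ℕ → ℤ, IsPOrdering X p n a := by
    intro n
    induction n with
    | zero =>
      obtain ⟨x, hx⟩ := hX
      refine ⟨fun _ => x, ?_⟩
      intro k hk
      have : k = 0 := by omega
      subst this
      refine ⟨hx, fun y _ => ?_⟩
      simp [prodDiff]
    | succ n ih =>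
      obtain ⟨a, ha⟩ := ih
      obtain ⟨x, hx, hmin⟩ := exists_argmin hX
        (fun y => emultiplicity (p : ℤ) (prodDiff a (n + 1) y))
      refine ⟨Function.update a (n + 1) x, ?_⟩
      have hpd : ∀ k ≤ n + 1, ∀ y, prodDiff (Function.update a (n + 1) x) k y
          = prodDiff a k y := by
        intro k hk y
        unfold prodDiff
        refine Finset.prod_congr rfl fun i hi => ?_
        rw [Finset.mem_range] at hi
        rw [Function.update_of_ne (by omega)]
      intro k hk
      rcases Nat.lt_or_ge k (n + 1) with h | h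
      · rw [Function.update_of_ne (by omega)]
        refine ⟨(ha k (by omega)).1, fun y hy => ?_⟩
        rw [hpd k hk, hpd k hk]
        exact (ha k (by omega)).2 y hy
      · have : k = n + 1 := by omega
        subst this
        rw [Function.update_self]
        refine ⟨hx, fun y hy => ?_⟩
        rw [hpd _ le_rfl, hpd _ le_rfl]
        exact hmin y hy
  exact step n

/-- For `n < |X|` the exponent in a `p`-ordering is finite. -/
lemma emult_ne_top {X : Set ℤ} {p n : ℕ} (hp : p.Prime) (hn : (n : ℕ∞) < X.encard)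
    {a : ℕ → ℤ} (ha : IsPOrdering X p n a) :
    emultiplicity (p : ℤ) (prodDiff a n (a n)) ≠ ⊤ := by
  classical
  -- some element of X is not among a 0, ..., a (n-1)
  have : ∃ x ∈ X, ∀ i < n, x ≠ a i := by
    by_contra hcon
    push Not at hcon
    have hsub : X ⊆ ((Finset.range n).image a : Finset ℤ) := by
      intro x hx
      obtain ⟨i, hi, hxi⟩ := hcon x hx
      simp only [Finset.coe_image, Finset.coe_range, Set.mem_image, Set.mem_Iio]
      exact ⟨i, hi, hxi.symm⟩
    have h1 := Set.encard_le_encard hsub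
    rw [Set.encard_coe_eq_coe_finsetCard] at h1
    have h2 : ((Finset.range n).image a).card ≤ n := by
      simpa using (Finset.card_image_le (s := Finset.range n) (f := a))
    have h3 : X.encard ≤ (n : ℕ∞) := h1.trans (by exact_mod_cast h2)
    exact absurd hn (not_lt.2 h3)
  obtain ⟨x, hx, hne⟩ := this
  have h1 := (ha n le_rfl).2 x hx
  have h2 : prodDiff a n x ≠ 0 := by
    unfold prodDiff
    rw [Finset.prod_ne_zero_iff]
    intro i hi
    exact sub_ne_zero.2 (hne i (Finset.mem_range.1 hi))
  have h3 : emultiplicity (p : ℤ) (prodDiff a n x) ≠ ⊤ := by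
    rw [← finiteMultiplicity_iff_emultiplicity_ne_top]
    rw [Int.finiteMultiplicity_iff]
    refine ⟨?_, h2⟩
    simpa using hp.one_lt.ne'
  exact fun h => h3 (top_le_iff.1 (h ▸ h1))

/-- Existence of the Bhargava factorials `n!_X` for all `n < |X|`. -/
lemma exists_factorial {X : Set ℤ} {n : ℕ} (hn : (n : ℕ∞) < X.encard) :
    ∃ F, IsFactorial X n F := by
  classical
  have hne : X.Nonempty := by
    rw [← Set.encard_pos]
    exact lt_of_le_of_lt zero_le hn
  -- n + 1 distinct elements
  obtain ⟨S, hSX, hS⟩ := Set.exists_subset_encard_eq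
    (show ((n + 1 : ℕ) : ℕ∞) ≤ X.encard by
      have := Order.add_one_le_of_lt hn
      simpa using this)
  have hfin : S.Finite := Set.finite_of_encard_eq_coe hS
  have hcard : hfin.toFinset.card = n + 1 := by
    have h : ((hfin.toFinset.card : ℕ) : ℕ∞) = ((n + 1 : ℕ) : ℕ∞) := by
      rw [← hS, hfin.encard_eq_coe_toFinset_card]
    exact_mod_cast h
  let e := hfin.toFinset.orderEmbOfFin hcard
  let c : ℕ → ℤ := fun i => if h : i < n + 1 then e ⟨i, h⟩ else 0
  have hcX : ∀ i ≤ n, c i ∈ X := by
    intro i hi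
    have hi' : i < n + 1 := by omega
    simp only [c, hi', dif_pos]
    have := hfin.toFinset.orderEmbOfFin_mem hcard ⟨i, hi'⟩
    exact hSX (hfin.mem_toFinset.1 this)
  have hcinj : ∀ i j, i < j → j ≤ n → c j - c i ≠ 0 := by
    intro i j hij hj
    have hi' : i < n + 1 := by omega
    have hj' : j < n + 1 := by omega
    simp only [c, hi', hj', dif_pos]
    intro h
    have h2 := e.injective (sub_eq_zero.1 h)
    simp at h2
    omega
  -- the product of all differences
  set D : ℤ := ∏ j ∈ Finset.range (n + 1), ∏ i ∈ Finset.range j, (c j - c i) with hD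
  have hD0 : D ≠ 0 := by
    rw [hD, Finset.prod_ne_zero_iff]
    intro j hj
    rw [Finset.prod_ne_zero_iff]
    intro i hi
    rw [Finset.mem_range] at hi hj
    exact hcinj i j hi (by omega)
  -- choose the p-orderings
  have hex : ∀ p : ℕ, p.Prime → ∃ a : ℕ → ℤ, IsPOrdering X p n a ∧
      (¬ (p : ℤ) ∣ D → emultiplicity (p : ℤ) (prodDiff a n (a n)) = 0) := by
    intro p hp
    by_cases hpD : (p : ℤ) ∣ D
    · obtain ⟨a, ha⟩ := exists_pOrdering hne p n
      exact ⟨a, ha, fun h => absurd hpD h⟩
    · have hz : ∀ k ≤ n, emultiplicity (p : ℤ) (prodDiff c k (c k)) = 0 := by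
        intro k hk
        rw [emult_eq_zero_iff]
        intro hdvd
        apply hpD
        refine hdvd.trans ?_
        rw [hD]
        exact Finset.dvd_prod_of_mem (fun j => ∏ i ∈ Finset.range j, (c j - c i))
          (Finset.mem_range.2 (by omega))
      refine ⟨c, ?_, fun _ => hz n le_rfl⟩
      intro k hk
      refine ⟨hcX k hk, fun x _ => ?_⟩
      rw [hz k hk]
      exact zero_le
  choose! a ha haz using hex
  -- the exponents
  let v : ℕ → ℕ := fun p => (emultiplicity (p : ℤ) (prodDiff (a p) n (a p n))).toNat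
  have hv : ∀ p, p.Prime → ((v p : ℕ) : ℕ∞) = emultiplicity (p : ℤ) (prodDiff (a p) n (a p n)) := by
    intro p hp
    exact ENat.natCast_toNat (emult_ne_top hp hn (ha p hp))
  let T : Finset ℕ := D.natAbs.primeFactors
  refine ⟨∏ p ∈ T, p ^ v p, hn, ?_, ?_⟩
  · apply Finset.prod_pos
    intro p hp
    exact pow_pos (Nat.prime_of_mem_primeFactors hp).pos _
  · intro p hp
    refine ⟨a p, ha p hp, ?_⟩
    rw [← hv p hp]
    congr 1
    have hpow : ∀ q ∈ T, padicValNat p (q ^ v q) = if q = p then v p else 0 := by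
      intro q hq
      have hqp := Nat.prime_of_mem_primeFactors hq
      have : Fact p.Prime := ⟨hp⟩
      split_ifs with h
      · subst h
        rw [padicValNat.prime_pow]
      · rw [padicValNat.pow]
        have : Fact q.Prime := ⟨hqp⟩
        rw [padicValNat_primes (Ne.symm h), mul_zero]
    have : Fact p.Prime := ⟨hp⟩
    have hprod : padicValNat p (∏ q ∈ T, q ^ v q) = ∑ q ∈ T, padicValNat p (q ^ v q) := by
      have hnz : ∀ q ∈ T, q ^ v q ≠ 0 := fun q hq =>
        (pow_pos (Nat.prime_of_mem_primeFactors hq).pos _).ne'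
      clear_value T
      induction T using Finset.induction_on with
      | empty => simp
      | insert q T hq ih =>
        rw [Finset.prod_insert hq, Finset.sum_insert hq, padicValNat.mul
          (hnz q (Finset.mem_insert_self _ _))
          (Finset.prod_ne_zero_iff.2 fun r hr => hnz r (Finset.mem_insert_of_mem hr))]
        rw [ih (fun r hr => hpow r (Finset.mem_insert_of_mem hr))
          (fun r hr => hnz r (Finset.mem_insert_of_mem hr))]
    rw [hprod, Finset.sum_congr rfl hpow, Finset.sum_ite_eq']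
    split_ifs with h
    · rfl
    · have : ¬ (p : ℤ) ∣ D := by
        intro hd
        apply h
        rw [Nat.mem_primeFactors]
        refine ⟨hp, ?_, ?_⟩
        · exact Int.natCast_dvd.1 hd
        · simpa using hD0
      simp [v, haz p hp this]

/-- Comparison: if no element of `X` is divisible by the prime `q` and `Y` meets all classes modulo
`q`, then `(q-1)!_X ≠ c (q-1)!_Y` for every `c` prime to `q`. -/
lemma ne_of_missing_full {X Y : Set ℤ} {q : ℕ} (hq : q.Prime) (hX : ∀ x ∈ X, ¬ (q : ℤ) ∣ x)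
    (hY : ∀ r : ZMod q, ∃ x ∈ Y, ((x : ℤ) : ZMod q) = r) {F G c : ℕ}
    (hF : IsFactorial X (q - 1) F) (hG : IsFactorial Y (q - 1) G) (hc : ¬ q ∣ c) :
    F ≠ c * G := by
  intro h
  have : Fact q.Prime := ⟨hq⟩
  obtain ⟨a, ha, hva⟩ := hF.2.2 q hq
  obtain ⟨b, hb, hvb⟩ := hG.2.2 q hq
  have h1 := dvd_of_missing hq hX ha
  have h2 := not_dvd_of_full hq hY hb
  have h3 : emultiplicity (q : ℤ) (prodDiff b (q - 1) (b (q - 1))) = 0 := emult_eq_zero_iff.2 h2
  rw [h3] at hvb
  have h4 : padicValNat q G = 0 := by exact_mod_cast hvb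
  have h5 : padicValNat q F ≠ 0 := by
    intro h0
    rw [h0] at hva
    exact (emult_eq_zero_iff.1 (by simpa using hva.symm)) h1
  apply h5
  rw [h, padicValNat.mul (by rintro rfl; simp at hc) hG.2.1.ne', h4,
    padicValNat.eq_zero_of_not_dvd hc]

end Pool.Agent.Q39.Bhargava
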